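import Pool.Agent.helper64.NQ.Spec

/-! Row KQR -/

set_option autoImplicit false

namespace Pool.Agent.NQ

open Pool.Agent.helper58.DC Pool.Agent.DI Pool.Agent.DR

theorem KQR : KQR_stmt := by
  intro Q _ _ N ω hω
  classical
  let _ : Fintype Q := Fintype.ofFinite Q
  let e : N × N ≃ {x : Q × Q | x.1 ∈ N ∧ x.2 ∈ N} :=
    { toFun := fun x => ⟨(x.1, x.2), x.1.2, x.2.2⟩
      invFun := fun x => (⟨x.1.1, x.2.1⟩, ⟨x.1.2, x.2.2⟩)
      left_inv := fun _ => rfl
      right_inv := fun _ => rfl }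
  have h1 : KQ N ω = ∑ x : N × N, ((ω x.1 x.2 : ℂˣ) : ℂ) := by
    unfold KQ
    rw [← finsum_set_coe_eq_finsum_mem, ← finsum_comp_equiv e, finsum_eq_sum_of_fintype]
    rfl
  rw [h1, Fintype.sum_prod_type_right]
  -- the characters
  let f : N → (N →* ℂ) := fun z =>
    { toFun := fun y => ((ω y z : ℂˣ) : ℂ)
      map_one' := by
        have h := hω.mul_left 1 N.one_mem 1 N.one_mem z z.2
        rw [mul_one] at h
        have h2 : ω 1 z = 1 := by
          have := mul_left_cancel (a := ω 1 (z : Q)) (b := 1) (c := ω 1 (z : Q))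
            (by rw [mul_one]; exact h)
          exact this.symm
        show ((ω 1 z : ℂˣ) : ℂ) = 1
        rw [h2, Units.val_one]
      map_mul' := by
        intro x y
        show ((ω (x * y) z : ℂˣ) : ℂ) = _
        rw [hω.mul_left x x.2 y y.2 z z.2, Units.val_mul] }
  have h2 : ∀ z : N, ∑ y : N, ((ω y z : ℂˣ) : ℂ) =
      if (z : Q) ∈ Rd N ω then (Nat.card N : ℂ) else 0 := by
    intro z
    have h3 := sum_hom_units (f z)
    have h4 : f z = 1 ↔ (z : Q) ∈ Rd N ω := by
      constructor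
      · intro h
        refine ⟨z.2, fun y hy => ?_⟩
        have h5 := DFunLike.congr_fun h (⟨y, hy⟩ : N)
        have h6 : ((ω y z : ℂˣ) : ℂ) = 1 := h5
        exact Units.ext h6
      · intro h
        ext y
        show ((ω y z : ℂˣ) : ℂ) = 1
        rw [h.2 y y.2, Units.val_one]
    rw [← Fintype.card_eq_nat_card]
    calc ∑ y : N, ((ω y z : ℂˣ) : ℂ) = ∑ y : N, f z y := rfl
      _ = if f z = 1 then (Fintype.card N : ℂ) else 0 := by
          rw [h3]
          split_ifs <;> simp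
      _ = if (z : Q) ∈ Rd N ω then (Fintype.card N : ℂ) else 0 := by simp only [h4]
  simp only [h2]
  rw [← Finset.sum_filter, Finset.sum_const, nsmul_eq_mul, mul_comm]
  congr 2
  have h5 : Nat.card (Rd N ω) = Fintype.card {z : N // (z : Q) ∈ Rd N ω} := by
    rw [← Nat.card_eq_fintype_card]
    refine Nat.card_congr ⟨fun z => ⟨⟨z.1, z.2.1⟩, z.2⟩, fun z => ⟨z.1.1, z.2⟩, fun _ => rfl,
      fun _ => rfl⟩
  rw [h5, Fintype.card_subtype]

end Pool.Agent.NQ
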